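import Pool.Agent.H948.HS.Stm

set_option autoImplicit false

/-! # Task NULL: the norm of the displacement has no atom -/

namespace Pool.Agent.H231.HS

open MeasureTheory ProbabilityTheory Set Filter Metric
open scoped ENNReal NNReal Topology RealInnerProductSpace
open Pool.Agent.H948.HS

theorem sig_null (hS : S_SIG) {m : ℕ} (hm : 1 ≤ m) {c : ℝ} (hc1 : c < 1) (w : E m) :
    sig m {x | ‖w + (x : E m)‖ = c} = 0 := by
  by_cases hw : w = 0
  · subst hw
    have : {x : Sp m | ‖(0 : E m) + (x : E m)‖ = c} = ∅ := by
      ext x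
      simp only [mem_ofPred_eq, zero_add, norm_sp, mem_empty_iff_false, iff_false]
      exact hc1.ne'
    rw [this, measure_empty]
  · refine measure_mono_null ?_ (hS.2 m w ((c ^ 2 - ‖w‖ ^ 2 - 1) / 2) hm hw)
    intro x hx
    simp only [mem_ofPred_eq] at hx ⊢
    have h1 := norm_add_sq_real w (x : E m)
    rw [hx, norm_sp] at h1
    linarith

theorem s_null (_hB : S_BLOCK) (hS : S_SIG) : S_NULL := by
  intro m c i j hm hc0 hc1 hij
  obtain ⟨k, rfl⟩ : ∃ k, j = k + 1 := ⟨j - 1, by omega⟩
  have hik : i ≤ k := by omega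
  have hind : iIndepFun (fun (n : ℕ) (u : Om m) => u n) (Pm m) := by
    unfold Pm
    exact iIndepFun_infinitePi (P := fun _ : ℕ => sig m) (X := fun _ x => x) (fun _ => measurable_id)
  have hdisj : Disjoint (Finset.Ico i k) ({k} : Finset ℕ) := by
    rw [Finset.disjoint_singleton_right, Finset.mem_Ico]
    omega
  have h1 := hind.indepFun_finset (Finset.Ico i k) ({k} : Finset ℕ) hdisj
    (fun n => measurable_pi_apply n)
  have hg : Measurable (fun x : ↥(Finset.Ico i k) → Sp m => ∑ l, (x l : E m)) :=
    Finset.measurable_sum _ fun l _ => measurable_subtype_coe.comp (measurable_pi_apply l)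
  have hh : Measurable (fun x : ↥({k} : Finset ℕ) → Sp m => x ⟨k, Finset.mem_singleton_self k⟩) :=
    measurable_pi_apply _
  have h2 : IndepFun (fun u : Om m => S u i k) (fun u : Om m => u k) (Pm m) := by
    have h3 := h1.comp hg hh
    have e1 : (fun x : ↥(Finset.Ico i k) → Sp m => ∑ l, (x l : E m)) ∘
        (fun (u : Om m) (l : ↥(Finset.Ico i k)) => u l) = fun u : Om m => S u i k := by
      funext u
      unfold S
      exact Finset.sum_coe_sort (Finset.Ico i k) (fun l => (u l : E m))
    rw [e1] at h3
    exact h3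
  have hWm : Measurable fun u : Om m => S u i k := measurable_S i k
  have hXm : Measurable fun u : Om m => u k := measurable_pi_apply k
  have h4 := (indepFun_iff_map_prod_eq_prod_map_map hWm.aemeasurable hXm.aemeasurable).1 h2
  have h5 : (Pm m).map (fun u : Om m => u k) = sig m := by
    unfold Pm
    exact (measurePreserving_eval_infinitePi (fun _ : ℕ => sig m) k).map_eq
  rw [h5] at h4
  have hA : MeasurableSet {p : E m × Sp m | ‖p.1 + (p.2 : E m)‖ = c} := by
    refine measurableSet_eq_fun ?_ measurable_const
    exact (measurable_fst.add (measurable_subtype_coe.comp measurable_snd)).norm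
  have h6 : {u : Om m | ‖S u i (k + 1)‖ = c} =
      (fun u : Om m => (S u i k, u k)) ⁻¹' {p : E m × Sp m | ‖p.1 + (p.2 : E m)‖ = c} := by
    ext u
    simp only [mem_ofPred_eq, mem_preimage]
    rw [S_succ u hik]
  have : IsProbabilityMeasure ((Pm m).map fun u : Om m => S u i k) :=
    Measure.isProbabilityMeasure_map hWm.aemeasurable
  rw [h6, ← Measure.map_apply (hWm.prodMk hXm) hA, h4, Measure.measure_prod_null hA]
  exact Filter.Eventually.of_forall fun w => sig_null hS hm hc1 w

end Pool.Agent.H231.HS
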